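import Pool.Agent.H8.Stra6

/-! Finite graphs are not dense in the asymptotic spectrum distance. -/

namespace Pool.Agent.Results.MP_83ab87_co.NotDense

open Cardinal

/-- a cohomomorphism `G → H` exists -/
def Cohom {V W : Type} (G : SimpleGraph V) (H : SimpleGraph W) : Prop :=
  ∃ f : V → W, ∀ x y, x ≠ y → ¬ G.Adj x y → f x ≠ f y ∧ ¬ H.Adj (f x) (f y)

/-- graphs with at most continuum many vertices and finite clique covering number -/
structure IG where
  V : Type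
  G : SimpleGraph V
  card : #V ≤ 𝔠
  cover : ∃ n, Cohom G (⊥ : SimpleGraph (Fin n))

/-- the edgeless graph `E_n` -/
def E (n : ℕ) : IG :=
  ⟨Fin n, ⊥, (mk_le_aleph0).trans aleph0_le_continuum, n, id, fun _ _ h h' => ⟨h, h'⟩⟩

/-- the disjoint union -/
def union (A B : IG) : IG where
  V := A.V ⊕ B.V
  G := A.G ⊕g B.G
  card := by
    simpa using (add_le_add A.card B.card).trans_eq continuum_add_self
  cover := by
    obtain ⟨n, f, hf⟩ := A.cover
    obtain ⟨m, g, hg⟩ := B.cover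
    refine ⟨n + m, fun x => finSumFinEquiv (Sum.map f g x), fun x y h h' =>
      ⟨finSumFinEquiv.injective.ne ?_, id⟩⟩
    rcases x with a | a <;> rcases y with b | b
    · exact fun e => (hf a b (fun e' => h (e' ▸ rfl)) h').1 (Sum.inl.inj e)
    · exact Sum.inl_ne_inr
    · exact Sum.inr_ne_inl
    · exact fun e => (hg a b (fun e' => h (e' ▸ rfl)) h').1 (Sum.inr.inj e)

/-- the strong product -/
def strong (A B : IG) : IG where
  V := A.V × B.V
  G :=
    { Adj := fun x y => x ≠ y ∧ (x.1 = y.1 ∨ A.G.Adj x.1 y.1) ∧ (x.2 = y.2 ∨ B.G.Adj x.2 y.2)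
      symm := ⟨fun _ _ h => ⟨h.1.symm, h.2.1.imp Eq.symm SimpleGraph.Adj.symm,
        h.2.2.imp Eq.symm SimpleGraph.Adj.symm⟩⟩
      loopless := ⟨fun _ h => h.1 rfl⟩ }
  card := by
    simpa using (mul_le_mul' A.card B.card).trans_eq continuum_mul_self
  cover := by
    obtain ⟨n, f, hf⟩ := A.cover
    obtain ⟨m, g, hg⟩ := B.cover
    refine ⟨n * m, fun x => finProdFinEquiv (f x.1, g x.2), fun x y h h' =>
      ⟨finProdFinEquiv.injective.ne fun e => h' ⟨h, ?_, ?_⟩, id⟩⟩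
    · by_contra hn
      exact (hf _ _ (fun e' => hn (Or.inl e')) fun e' => hn (Or.inr e')).1 (congrArg Prod.fst e)
    · by_contra hn
      exact (hg _ _ (fun e' => hn (Or.inl e')) fun e' => hn (Or.inr e')).1 (congrArg Prod.snd e)

/-- points of the asymptotic spectrum -/
structure Spec (F : IG → ℝ) : Prop where
  nonneg : ∀ G, 0 ≤ F G
  add : ∀ G H, F (union G H) = F G + F H
  mul : ∀ G H, F (strong G H) = F G * F H
  norm : ∀ n : ℕ, F (E n) = n
  mono : ∀ G H : IG, Cohom G.G H.G → F G ≤ F H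

/-- the asymptotic spectrum distance -/
noncomputable def d (G H : IG) : ℝ := sSup {t | ∃ F, Spec F ∧ t = |F G - F H|}

open Pool.Agent.H8

def tr (A : IG) : StraI.FG :=
  ⟨A.V, A.Gᶜ, by
    obtain ⟨n, f, hf⟩ := A.cover
    exact ⟨Fin n, inferInstance, f, fun x y h => (hf x y h.1 h.2).1⟩⟩

lemma spec_of {η : StraI.FG → ℝ} (h : StraI.Spec η) : Spec fun A => η (tr A) where
  nonneg A := h.nonneg _
  add A B := by
    rw [← h.add]
    refine h.eq (StraI.mk_eq (Equiv.refl _) ?_)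
    rintro (a | a) (b | b)
    · exact and_congr_left' Sum.inl_injective.ne_iff
    · exact iff_of_true ⟨Sum.inl_ne_inr, by simp [union]⟩ trivial
    · exact iff_of_true ⟨Sum.inr_ne_inl, by simp [union]⟩ trivial
    · exact and_congr_left' Sum.inr_injective.ne_iff
  mul A B := by
    rw [← h.mul]
    refine h.eq (StraI.mk_eq (Equiv.refl _) ?_)
    rintro ⟨a, b⟩ ⟨a', b'⟩
    change (a, b) ≠ (a', b') ∧ ¬ ((a, b) ≠ (a', b') ∧ (a = a' ∨ A.G.Adj a a') ∧
      (b = b' ∨ B.G.Adj b b')) ↔ (a ≠ a' ∧ ¬ A.G.Adj a a') ∨ (b ≠ b' ∧ ¬ B.G.Adj b b')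
    simp only [ne_eq, Prod.mk.injEq]
    tauto
  norm n := by
    rw [← h.K]
    exact h.eq (StraI.mk_eq (Equiv.refl _) fun x y => ⟨fun h => h.1, fun h => ⟨h, id⟩⟩)
  mono A B := fun ⟨f, hf⟩ => h.mono _ _ (StraI.FG.hom_of f fun x y h => hf x y h.1 h.2)

theorem result (ε : ℝ) : ∃ G : IG, ∀ H : IG, Finite H.V → ε ≤ d G H := by
  obtain ⟨k, hk⟩ := StraI.main ε
  let G : IG := ⟨(ℕ × ℕ) × Fin k, (StraI.GG k).Gᶜ, (mk_le_aleph0).trans aleph0_le_continuum,
    k, Prod.snd, fun x y h h' => ⟨(not_not.1 fun h2 => h' ⟨h, h2⟩ : (StraI.GG k).G.Adj x y).2, id⟩⟩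
  refine ⟨G, fun H hH => ?_⟩
  obtain ⟨η, h1, h2⟩ := hk (tr H) hH
  have e : η (tr G) = η (StraI.GG k) :=
    h1.eq (StraI.mk_eq (Equiv.refl _) fun x y => by
      change (StraI.GG k).Gᶜᶜ.Adj x y ↔ _
      rw [compl_compl]; rfl)
  refine le_csSup_of_le ?_ ⟨_, spec_of h1, rfl⟩ (by rw [e]; exact h2)
  obtain ⟨n, hn⟩ := G.cover
  obtain ⟨m, hm⟩ := H.cover
  refine ⟨n + m, ?_⟩
  rintro _ ⟨F, hF, rfl⟩
  have a1 := hF.mono G (E n) hn
  have a2 := hF.mono H (E m) hm
  have a3 := hF.nonneg G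
  have a4 := hF.nonneg H
  rw [hF.norm] at a1 a2
  rw [abs_le]; constructor <;> linarith

end Pool.Agent.Results.MP_83ab87_co.NotDense
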